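import Pool.Agent.KS6_71.FC.Refine

/-! Fold and cut with prescribed positions of finitely many boundary points. -/

namespace Pool.Agent.KS6_71.FC

open Complex Pool.Agent.Helper22.FC

noncomputable section

theorem final_good2 {V : List ℂ} (hV : SimpleL V) (hg : Good V) :
    ∃ R₀ > 0, ∀ R : ℝ, 0 < R → R ≤ R₀ → ∀ ρ : ℂ → ℝ, (∀ x, 3 / 4 ≤ ρ x ∧ ρ x ≤ 1) →
      ∃ K : List Cor, K.map Prod.fst = V ∧
      (∀ x ∈ K, x.2.1 = R * ρ x.1 ∧ ∀ w ∈ x.2.2, 0 < w ∧ w ≤ 1 / 2 * R) ∧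
      (∀ e ∈ cyc K, FitE e.1 e.2) ∧ FinalQ (tips K) := by
  refine final_stack2 NS FinalQ ?_ hV (good_fill hg)
  intro h hh G hG hpos hS
  have hS' : NS (0 + h) (G.map (inner h)) := by rw [zero_add]; exact hS
  obtain ⟨S⟩ := hS'
  obtain ⟨S', h1, h2⟩ := Stack.ring hh G hG hpos S
  exact ⟨S', h1, h2⟩

theorem exists_fst2 {U : List ℂ} {P : Set ℂ} (hU : SimpleL U) (hg : Good U)
    (hw : ∀ x, x ∉ curve U → wnd x U = 0 ∨ wnd x U = 2 * Real.pi)
    (hc : IsCompact P) (hr : closure (interior P) = P) (hf : frontier P = curve U) :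
    ∃ R₀ > 0, ∀ R : ℝ, 0 < R → R ≤ R₀ → ∀ ρ : ℂ → ℝ, (∀ x, 3 / 4 ≤ ρ x ∧ ρ x ≤ 1) →
      ∃ D : List (ℂ × ℝ), Nonempty (FSt D P) ∧ curve (D.map Prod.fst) = curve U ∧
      (∀ d ∈ D, (d.1 ∈ U ∧ d.2 = R * ρ d.1) ∨ d.2 ≤ 1 / 2 * R) ∧
      ∀ x ∈ U, (x, R * ρ x) ∈ D := by
  obtain ⟨R₀, hR₀, H⟩ := final_good2 hU hg
  refine ⟨R₀, hR₀, fun R hR hRle ρ hρ => ?_⟩
  obtain ⟨K, hK, hKR, hfit, S, hS1, hS2⟩ := H R hR hRle ρ hρ
  obtain ⟨hT1, hT2, hT3⟩ := tips_simple wndFacts hU hK hfit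
  have hw' : ∀ x, x ∉ curve ((tips K).map Prod.fst) →
      wnd x ((tips K).map Prod.fst) = 0 ∨ wnd x ((tips K).map Prod.fst) = 2 * Real.pi := by
    intro x hx
    rw [hT2] at hx
    rw [hT3 x hx]
    exact hw x hx
  have hf' : frontier P = curve ((tips K).map Prod.fst) := by rw [hT2]; exact hf
  have hPe := region_eq wndFacts hT1 hw' hc hr hf'
  refine ⟨tips K, ⟨?_⟩, hT2, ?_, ?_⟩
  · exact { S := S, hflag := hS1, hB := hS2, hU := hT1, hcpt := hc, hreg := hr, hfr := hf',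
            disj := fun k l hkl => faces_disjoint pcFacts S hw' hkl,
            cover := faces_cover pcFacts S hw' hPe hc hr hf' }
  · intro d hd
    obtain ⟨e, he, hd⟩ := List.mem_flatMap.1 hd
    simp only [edgeTips, List.mem_cons] at hd
    have hmem := cyc_fst_mem he
    rcases hd with rfl | hd
    · left
      refine ⟨?_, (hKR _ hmem).1⟩
      rw [← hK]
      exact List.mem_map.2 ⟨e.1, hmem, rfl⟩
    · right
      exact ((hKR _ hmem).2 _ (place_rad hd)).2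
  · intro x hx
    rw [← hK] at hx
    obtain ⟨k, hk, rfl⟩ := List.mem_map.1 hx
    obtain ⟨e, he, rfl⟩ := mem_cyc_of_mem hk
    refine List.mem_flatMap.2 ⟨e, he, ?_⟩
    rw [← (hKR _ hk).1]
    simp [edgeTips]

/-- the centre of a boundary disc is mapped to its radius -/
theorem centre_value (PF : PcFacts) {D : List (ℂ × ℝ)} {P : Set ℂ} (F : FSt D P) (f : ℂ → ℂ)
    (hf : ∀ i, ∀ x ∈ (F.S.pc i).face, f x = (F.S.pc i).σ x) {d : ℂ × ℝ} (hd : d ∈ D) :
    f d.1 = (d.2 : ℂ) := by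
  rw [← F.S.hT, List.mem_map] at hd
  obtain ⟨a, ha, rfl⟩ := hd
  obtain ⟨b, hab⟩ := lv_cyc_fst _ _ ha
  obtain ⟨τ, g1, g2, g3, g4, g5, g6, g7, g8, g9, g10, g11, g12, g13⟩ := (F.S.geo _ hab).1
  simp only at g1 g2 g3 g4 g5 g6 g7 g8 g9 g10 g11 g12 g13
  have hoka := (F.S.ok a.2.2).1
  have hpa := hoka.2.2.1
  rw [g11] at hpa
  have e1 : a.1.1 = (F.S.pc a.2.2).pt a.1.2 0 := by
    unfold Pc.pt
    rw [if_neg (by rw [g3]; simp), g7, g5]
    push_cast
    ring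
  have hy1 := hoka.2.1
  rw [g9] at hy1
  have hm : a.1.1 ∈ (F.S.pc a.2.2).face := by
    rw [e1, PF.mem_face hoka, g9, g11]
    refine ⟨le_rfl, hy1.le, hpa.le, ?_⟩
    simp only [sub_zero, mul_zero, add_zero]
    exact le_refl _
  rw [hf _ _ hm]
  conv_lhs => rw [e1]
  rw [PF.σ_pt hoka]
  push_cast
  ring

/-- Finitely many points of the boundary can be placed arbitrarily on a short interval. -/
theorem place_points {n : ℕ} (v : Fin (n + 3) → ℂ) (hv : SimplePolygon v) (P : Set ℂ)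
    (hP : IsPaper v P) (T : Finset ℂ) (hT : (T : Set ℂ) ⊆ boundary v) (ε : ℝ) (hε : 0 < ε) :
    ∃ a b : ℝ, 0 < a ∧ a < b ∧ b < ε ∧ ∀ g : ℂ → ℝ, (∀ x ∈ T, a ≤ g x ∧ g x ≤ b) →
      ∃ F : FlatFolding P, {x | x ∈ P ∧ (F.f x).im = 0} = boundary v ∧
        (∀ x ∈ boundary v, 0 ≤ (F.f x).re ∧ (F.f x).re ≤ b) ∧
        (∀ x ∈ T, F.f x = (g x : ℂ)) ∧
        ∀ m : ℝ, a ≤ m → (∀ x ∈ T, g x ≤ m) →
          {x | x ∈ P ∧ F.f x = (m : ℂ)} = {x | x ∈ T ∧ g x = m} := by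
  classical
  obtain ⟨V, hV, hVc, hVT⟩ := refine_polygon (simple_ofFn hv) T (by rw [curve_ofFn]; exact hT)
  rw [curve_ofFn] at hVc
  obtain ⟨U, -, hU, hUc, hUm, hw, hg⟩ := orient hV
  rw [hVc] at hUc
  obtain ⟨R₀, hR₀, H⟩ := exists_fst2 hU hg hw hP.compact hP.regular (by rw [hP.bdry, hUc])
  obtain ⟨R, hR, hRR, hRε⟩ : ∃ R : ℝ, 0 < R ∧ R ≤ R₀ ∧ R < ε :=
    ⟨min R₀ (ε / 2), by positivity, min_le_left _ _,
      lt_of_le_of_lt (min_le_right _ _) (by linarith)⟩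
  refine ⟨7 / 8 * R, R, by positivity, by linarith, hRε, ?_⟩
  intro g hgT
  set ρ : ℂ → ℝ := fun x => if x ∈ T then g x / R else 13 / 16 with hρdef
  have hρ : ∀ x, 3 / 4 ≤ ρ x ∧ ρ x ≤ 1 := by
    intro x
    simp only [hρdef]
    split_ifs with h
    · have := hgT x h
      rw [le_div_iff₀ hR, div_le_iff₀ hR]
      constructor
      · linarith [this.1]
      · linarith [this.2]
    · norm_num
  have hρT : ∀ x ∈ T, R * ρ x = g x := by
    intro x hx
    simp only [hρdef, if_pos hx]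
    field_simp
  have hρN : ∀ x, x ∉ T → R * ρ x = 13 / 16 * R := by
    intro x hx
    simp only [hρdef, if_neg hx]
    ring
  obtain ⟨D, ⟨F⟩, hD1, hD2, hD3⟩ := H R hR hRR ρ hρ
  obtain ⟨G, hG⟩ := fst_folding agree F
  have hDR : ∀ d ∈ D, d.2 ≤ R := by
    intro d hd
    rcases hD2 d hd with ⟨_, h⟩ | h
    · rw [h]
      have := (hρ d.1).2
      nlinarith
    · linarith
  have l1 := (levels pcFacts F (fmap F) (fmap_eq agree F) hDR).1
  have hsub : boundary v ⊆ P := by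
    rw [← hP.bdry]; exact hP.compact.isClosed.frontier_subset
  have hbd : {x | x ∈ P ∧ (G.f x).im = 0} = boundary v := by
    ext x
    rw [Set.mem_ofPred_eq, hG]
    constructor
    · rintro ⟨h1, h2⟩
      rw [← hUc, ← hD1]
      exact (l1 x h1).1 h2
    · intro h
      refine ⟨hsub h, (l1 x (hsub h)).2 ?_⟩
      rw [hD1, hUc]; exact h
  refine ⟨G, hbd, ?_, ?_, ?_⟩
  · intro x hx
    have hxP := hsub hx
    have him : (G.f x).im = 0 := by
      have : x ∈ {x | x ∈ P ∧ (G.f x).im = 0} := by rw [hbd]; exact hx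
      exact this.2
    have hval : G.f x = ((G.f x).re : ℂ) := Complex.ext (by simp) (by simp [him])
    constructor
    · have h1 := hxP
      rw [← F.cover, Set.mem_iUnion] at h1
      obtain ⟨i, hi⟩ := h1
      rw [hG, fmap_eq agree F i x hi]
      have h2 : (F.S.pc i).σ x ∈ (F.S.pc i).trap := hi
      exact h2.2.2.1
    · by_contra hcon
      push Not at hcon
      have h2 := (levels pcFacts F (fmap F) (fmap_eq agree F) (R := (G.f x).re)
        (fun d hd => (hDR d hd).trans hcon.le)).2 x hxP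
      have h3 : fmap F x = (((G.f x).re : ℝ) : ℂ) := by rw [← hG]; exact hval
      obtain ⟨d, hd, hd2, -⟩ := h2.1 h3
      have := hDR d hd
      linarith
  · intro x hx
    have h1 := hD3 x ((hUm x).2 (hVT x hx))
    have h2 := centre_value pcFacts F (fmap F) (fmap_eq agree F) h1
    rw [hG]
    rw [hρT x hx] at h2
    exact h2
  · intro m hm hgm
    have hDm : ∀ d ∈ D, d.2 ≤ m := by
      intro d hd
      rcases hD2 d hd with ⟨_, h⟩ | h
      · rw [h]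
        by_cases hT' : d.1 ∈ T
        · rw [hρT _ hT']
          exact hgm _ hT'
        · rw [hρN _ hT']
          linarith
      · linarith
    have l2 := (levels pcFacts F (fmap F) (fmap_eq agree F) hDm).2
    ext x
    rw [Set.mem_ofPred_eq, Set.mem_ofPred_eq, hG]
    constructor
    · rintro ⟨h1, h2⟩
      obtain ⟨d, hd, hd2, rfl⟩ := (l2 x h1).1 h2
      rcases hD2 d hd with ⟨_, h⟩ | h
      · by_cases hT' : d.1 ∈ T
        · rw [hρT _ hT'] at h
          exact ⟨hT', by rw [← h, hd2]⟩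
        · rw [hρN _ hT'] at h
          linarith
      · linarith
    · rintro ⟨h1, h2⟩
      have h3 : x ∈ P := hsub (hT h1)
      refine ⟨h3, (l2 x h3).2 ⟨(x, R * ρ x), hD3 x ((hUm x).2 (hVT x h1)), ?_, rfl⟩⟩
      show R * ρ x = m
      rw [hρT x h1, h2]

/-- the points of the paper over one point of the plane are finite in number -/
theorem fibre_finite {P : Set ℂ} (F : FlatFolding P) (p : ℂ) :
    {x | x ∈ P ∧ F.f x = p}.Finite := by
  have := F.fin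
  have h1 : {x | x ∈ P ∧ F.f x = p} ⊆ ⋃ i, {x | x ∈ F.face i ∧ F.f x = p} := by
    rintro x ⟨hx, hp⟩
    rw [← F.cover, Set.mem_iUnion] at hx
    obtain ⟨i, hi⟩ := hx
    exact Set.mem_iUnion.2 ⟨i, hi, hp⟩
  refine Set.Finite.subset (Set.finite_iUnion fun i => ?_) h1
  apply Set.Subsingleton.finite
  rintro x ⟨hx, hxp⟩ y ⟨hy, hyp⟩
  obtain ⟨g, hg⟩ := F.isometric i
  apply g.injective
  rw [← hg x hx, ← hg y hy, hxp, hyp]

end

end Pool.Agent.KS6_71.FC
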