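import Pool.Agent.KS6_71.FC.Stack2

/-! Inserting finitely many boundary points as further (straight) vertices of a simple polygon. -/

namespace Pool.Agent.KS6_71.FC

open Complex Pool.Agent.Helper22.FC

noncomputable section

theorem rotate_edge {V : List ℂ} (h3 : 3 ≤ V.length) {e : ℂ × ℂ} (he : e ∈ cyc V) :
    ∃ k Y, V.rotate k = e.1 :: e.2 :: Y := by
  obtain ⟨i, hi, rfl⟩ := List.getElem_of_mem he
  have hlen : i < V.length := by simpa [cyc] using hi
  have h1 : ((cyc V)[i]).1 = V[i] := by simp [cyc]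
  have h2 : ((cyc V)[i]).2 = V[(i + 1) % V.length]'(Nat.mod_lt _ (by omega)) := by
    simp [cyc, List.getElem_rotate]
  obtain ⟨L, hL⟩ : ∃ L, L = V.rotate i := ⟨_, rfl⟩
  have hLl : L.length = V.length := by rw [hL]; simp
  match L, hL, hLl with
  | [], _, h => simp at h; omega
  | [a], _, h => simp at h; omega
  | a :: b :: Y, hL, h =>
    refine ⟨i, Y, ?_⟩
    rw [← hL, h1, h2]
    have ha : (V.rotate i)[0]? = some a := by rw [← hL]; rfl
    have hb : (V.rotate i)[1]? = some b := by rw [← hL]; rfl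
    rw [List.getElem?_rotate (by omega)] at ha hb
    rw [Nat.zero_add, Nat.mod_eq_of_lt hlen, List.getElem?_eq_getElem hlen] at ha
    rw [Nat.add_comm 1 i, List.getElem?_eq_getElem (Nat.mod_lt _ (by omega))] at hb
    simp only [Option.some.injEq] at ha hb
    rw [ha, hb]

/-- a point of the curve can be made a vertex -/
theorem insert_point {V : List ℂ} (hV : SimpleL V) {x : ℂ} (hx : x ∈ curve V) :
    ∃ V', SimpleL V' ∧ curve V' = curve V ∧ x ∈ V' ∧ ∀ y ∈ V, y ∈ V' := by
  by_cases hxV : x ∈ V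
  · exact ⟨V, hV, rfl, hxV, fun y hy => hy⟩
  obtain ⟨e, he, hxe⟩ := hx
  obtain ⟨k, Y, hk⟩ := rotate_edge hV.1 he
  have hR := j1560_simple_rot hV k
  have hcr : curve (V.rotate k) = curve V := curve_rotate V k
  rw [hk] at hR hcr
  have hmem : ∀ y, y ∈ V ↔ y ∈ e.1 :: e.2 :: Y := by
    intro y
    rw [← hk, List.mem_rotate]
  have hne1 : x ≠ e.1 := by
    rintro rfl
    exact hxV ((hmem _).2 (by simp))
  have hne2 : x ≠ e.2 := by
    rintro rfl
    exact hxV ((hmem _).2 (by simp))
  have hxo : x ∈ openSegment ℝ e.1 e.2 := by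
    rcases mem_openSegment_of_ne_left_right hne1.symm hne2.symm hxe with h
    exact h
  obtain ⟨g1, g2, -⟩ := j1560_ext_insert wndFacts hR hxo
  refine ⟨_, g1, g2.trans hcr, by simp, ?_⟩
  intro y hy
  have := (hmem y).1 hy
  simp only [List.mem_cons] at this ⊢
  tauto

theorem refine_polygon {V : List ℂ} (hV : SimpleL V) (T : Finset ℂ) (hT : (T : Set ℂ) ⊆ curve V) :
    ∃ V', SimpleL V' ∧ curve V' = curve V ∧ ∀ x ∈ T, x ∈ V' := by
  classical
  induction T using Finset.induction_on with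
  | empty => exact ⟨V, hV, rfl, by simp⟩
  | insert a T ha ih =>
    obtain ⟨V1, h1, h2, h3⟩ := ih (fun x hx => hT (by simp at hx ⊢; exact Or.inr hx))
    obtain ⟨V2, g1, g2, g3, g4⟩ := insert_point h1 (x := a) (by
      rw [h2]
      exact hT (by simp))
    refine ⟨V2, g1, g2.trans h2, ?_⟩
    intro x hx
    rcases Finset.mem_insert.1 hx with rfl | hx
    · exact g3
    · exact g4 x (h3 x hx)

end

end Pool.Agent.KS6_71.FC
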